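import Pool.Agent.Y616.MH.Main

/-!
# Continuum many weak solutions for multifluid incompressible MHD, close to any given velocity

`Ω ⊂ ℝ³` is any bounded nonempty open set, `T > 0`, `σ` any conductivity, and the viscosity is `1`.
Let `v` be any smooth divergence free velocity field with compact support in `(0,T) × Ω`, and
`ε > 0`. Then there are a continuous initial density `ρ₀` with `|ρ₀ - 1| ≤ ε` and a force
`f ∈ L²(0,T;L²)` such that for the data `u₀ = B₀ = 0`, `ρ₀`, `f` the following are weak solutions:
the fluid at rest, and continuum many other ones `(ρ A, u A, 0)`, `A ⊆ ℕ`, with pairwise different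
velocities; all the densities `ρ A` are continuous, all the velocities `u A` are continuously
differentiable (in time and space) with compact support in `(0,T) × Ω`, and they are `ε`-close to
`v` together with all their first derivatives.

Idea. The starting result `NonUnique` constructs one pair (the fluid at rest, one moving fluid) by
an iteration (convex integration for the density). Here the iteration is run with explicit
constants near `v` and in countably many small disjoint balls outside of the support of `v`, with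
amplitudes that decrease quickly; in each ball the fluid may move or stay at rest independently of
the others. The labels of the particles of the glued flow are those of the single flows.

All the definitions used in the statement are in `Pool.Agent.H729R2.Defs`.
-/

set_option autoImplicit false

open scoped ContDiff
open MeasureTheory Pool.Agent.H729R2 Pool.Agent.H729R2.MHD

namespace Pool.Agent.Results.MP_59296a_an.ContinuumMany

/-- **Non-uniqueness near every velocity field, with continuum many solutions.** -/
theorem result (Ω : Set R3) (hΩ : IsOpen Ω) (hbd : Bornology.IsBounded Ω) (hne : Ω.Nonempty)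
    (T : ℝ) (hT : 0 < T) (σ : ℝ → ℝ) (hσ : Coeff σ)
    (v : ℝ × R3 → R3) (hv : ContDiff ℝ ∞ v) (hvc : HasCompactSupport v)
    (hvs : tsupport v ⊆ Cyl Ω T) (hdiv : ∀ z, ∑ i, dx i (fun y => v y i) z = 0)
    (ε : ℝ) (hε : 0 < ε) :
    ∃ (ρ₀ : R3 → ℝ) (f : ℝ → R3 → R3) (ρ : Set ℕ → ℝ → R3 → ℝ) (u : Set ℕ → ℝ → R3 → R3),
      Continuous ρ₀ ∧ (∀ x, |ρ₀ x - 1| ≤ ε) ∧ IsData Ω T (fun _ => 1) σ ρ₀ 0 0 f ∧
      WeakSol Ω T (fun _ => 1) σ ρ₀ 0 0 f (fun _ => ρ₀) 0 0 ∧
      (∀ A, WeakSol Ω T (fun _ => 1) σ ρ₀ 0 0 f (ρ A) (u A) 0 ∧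
        Continuous (fun z : ℝ × R3 => ρ A z.1 z.2) ∧
        ContDiff ℝ 1 (fun z : ℝ × R3 => u A z.1 z.2) ∧
        HasCompactSupport (fun z : ℝ × R3 => u A z.1 z.2) ∧
        tsupport (fun z : ℝ × R3 => u A z.1 z.2) ⊆ Cyl Ω T ∧
        ∀ z : ℝ × R3, ‖u A z.1 z.2 - v z‖ ≤ ε ∧
          ‖fderiv ℝ (fun z : ℝ × R3 => u A z.1 z.2 - v z) z‖ ≤ ε) ∧
      ∀ A B, A ≠ B → ¬ ∀ᵐ z ∂(volume.restrict (Cyl Ω T)), u A z.1 z.2 = u B z.1 z.2 :=
  Pool.Agent.Y616.MH.main hΩ hbd hne hT hσ hv hvc hvs hdiv hε

end Pool.Agent.Results.MP_59296a_an.ContinuumMany
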